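import Pool.Agent.P8H67.TD.Stm

/-!
Parts ACY and QH of project TD: homology of open subsets of `ℝ^(m+1)` and of finite-dimensional spaces.
-/

set_option autoImplicit false

open Set Filter Topology

namespace Pool.Agent.P8H55.TD

open Pool.Agent.P8H67.TD
open Pool.Agent.N520.SV (Sx Chain face bdry norm1 BCob)
open Pool.Agent.H904R2 (RAcyc)

/-- transfer along a homeomorphism of the ambient spaces -/
theorem tr (Z Z' : Type) [TopologicalSpace Z] [TopologicalSpace Z'] (e : Z ≃ₜ Z') (k : ℕ)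
    (h : ∀ W' : Set Z', IsOpen W' → RAcyc W' k) (W : Set Z) (hW : IsOpen W) : RAcyc W k := by
  have hW' : IsOpen (e.symm ⁻¹' W) := hW.preimage e.symm.continuous
  have hmem : ∀ x : W, e x.1 ∈ e.symm ⁻¹' W := by
    intro x
    rw [Set.mem_preimage, Homeomorph.symm_apply_apply]
    exact x.2
  refine Pool.Agent.H904R2.MV.racyc_of_retract (X := W) (Y := (e.symm ⁻¹' W : Set Z'))
    ⟨fun x => ⟨e x.1, hmem x⟩, (e.continuous.comp continuous_subtype_val).subtype_mk _⟩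
    ⟨fun y => ⟨e.symm y.1, y.2⟩, (e.symm.continuous.comp continuous_subtype_val).subtype_mk _⟩
    ?_ k (h _ hW')
  ext x
  exact e.symm_apply_apply x.1

/-- **Part ACY** -/
theorem acy : S_ACY := by
  intro hpi hdj hmvs hslab hcpt hlin m
  induction m with
  | zero =>
    intro W hW j _
    exact tr _ _ (Homeomorph.funUnique (Fin 1) ℝ) (j + 1) (fun W' hW' => hlin W' hW' j) W hW
  | succ m ih =>
    intro W hW j hj
    obtain ⟨j', rfl⟩ : ∃ j', j = j' + 1 := ⟨j - 1, by omega⟩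
    refine tr _ _ (Fin.consEquivL ℝ (fun _ : Fin (m + 1 + 1) => ℝ)).symm.toHomeomorph _
      (fun W' hW' => ?_) W hW
    refine hcpt (Fin (m + 1) → ℝ) (j' + 1) (fun N l r V hV => ?_) W' hW'
    exact hslab hpi hdj hmvs (Fin (m + 1) → ℝ) j' (fun V hV => ih V hV j' (by omega))
      (fun V hV => ih V hV (j' + 1) (by omega)) N l r V hV

/-- **Part QH** -/
theorem qh : S_QH := by
  intro hacy hflat Q _ _ _ U hU hQ W hW j hj
  obtain ⟨m, hm⟩ : ∃ m, Module.finrank ℝ Q = m + 1 := ⟨Module.finrank ℝ Q - 1, by omega⟩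
  obtain ⟨e⟩ : Nonempty (Q ≃ₜ (Fin (m + 1) → ℝ)) :=
    ⟨(ContinuousLinearEquiv.ofFinrankEq (𝕜 := ℝ) (E := Q) (F := Fin (m + 1) → ℝ)
      (by rw [hm, Module.finrank_fin_fun])).toHomeomorph⟩
  refine hflat W j ?_
  have hW1 : IsOpen (Subtype.val '' W : Set Q) := hU.isOpenMap_subtype_val W hW
  have hW2 : IsOpen (e.symm ⁻¹' (Subtype.val '' W)) := hW1.preimage e.symm.continuous
  have hmem : ∀ x : W, e x.1.1 ∈ e.symm ⁻¹' (Subtype.val '' W) := by
    intro x
    rw [Set.mem_preimage, Homeomorph.symm_apply_apply]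
    exact ⟨x.1, x.2, rfl⟩
  have hU' : ∀ y : (e.symm ⁻¹' (Subtype.val '' W) : Set (Fin (m + 1) → ℝ)), e.symm y.1 ∈ U := by
    rintro ⟨y, w, hw, hy⟩
    change e.symm y ∈ U
    rw [← hy]
    exact w.2
  have hWm : ∀ y : (e.symm ⁻¹' (Subtype.val '' W) : Set (Fin (m + 1) → ℝ)),
      (⟨e.symm y.1, hU' y⟩ : U) ∈ W := by
    rintro ⟨y, w, hw, hy⟩
    have : (⟨e.symm y, hU' ⟨y, w, hw, hy⟩⟩ : U) = w := Subtype.ext hy.symm
    rw [this]
    exact hw
  refine Pool.Agent.H904R2.MV.racyc_of_retract (X := W)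
    (Y := (e.symm ⁻¹' (Subtype.val '' W) : Set (Fin (m + 1) → ℝ)))
    ⟨fun x => ⟨e x.1.1, hmem x⟩,
      (e.continuous.comp (continuous_subtype_val.comp continuous_subtype_val)).subtype_mk _⟩
    ⟨fun y => ⟨⟨e.symm y.1, hU' y⟩, hWm y⟩,
      ((e.symm.continuous.comp continuous_subtype_val).subtype_mk _).subtype_mk _⟩
    ?_ (j + 1) (hacy m _ hW2 j (by omega))
  ext x
  exact e.symm_apply_apply x.1.1

end Pool.Agent.P8H55.TD
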